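import Mathlib

/-!
The exact lower bound 4/3 for the value of an interior vertex of a grid under a solvable pebbling
distribution.
-/

set_option autoImplicit false

namespace Pool.Agent.P.MP_33b0ad_co.TwoSided

open SimpleGraph

/-- The `m x n` grid graph: box product of two paths. -/
def grid (m n : ℕ) : SimpleGraph (Fin m × Fin n) := pathGraph m □ pathGraph n

/-- `x` is neither in the first or last row nor in the first or last column. -/
def IsInterior {m n : ℕ} (x : Fin m × Fin n) : Prop :=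
  0 < x.1.val ∧ x.1.val + 1 < m ∧ 0 < x.2.val ∧ x.2.val + 1 < n

/-- One pebbling move: two pebbles leave `u` and one pebble is put on a neighbour `v`. -/
def Move {V : Type} [DecidableEq V] (G : SimpleGraph V) (P Q : V → ℕ) : Prop :=
  ∃ u v : V, G.Adj u v ∧ 2 ≤ P u ∧
    Q = fun w => if w = u then P u - 2 else if w = v then P v + 1 else P w

/-- Every vertex receives a pebble after some finite sequence of moves. -/
def Solvable {V : Type} [DecidableEq V] (G : SimpleGraph V) (P : V → ℕ) : Prop :=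
  ∀ y : V, ∃ Q : V → ℕ, Relation.ReflTransGen (Move G) P Q ∧ 1 ≤ Q y

/-- The value `v(x) = sum_y P(y) 2^(-d(x,y))`, with `d` the graph distance. -/
noncomputable def value {V : Type} [Fintype V] (G : SimpleGraph V) (P : V → ℕ) (x : V) : ℝ :=
  ∑ y : V, (P y : ℝ) * (2 : ℝ) ^ (-(G.dist x y : ℤ))

open Classical in
/-- The hemmed distribution: two more pebbles on every boundary vertex. -/
noncomputable def hem {m n : ℕ} (P : Fin m × Fin n → ℕ) (y : Fin m × Fin n) : ℕ :=
  if IsInterior y then P y else P y + 2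

/-! ### Reachability -/

section Gen
variable {V : Type} [DecidableEq V] {G : SimpleGraph V}

/-- some sequence of moves from `P` ends above `Q` -/
def Rch (G : SimpleGraph V) (P Q : V → ℕ) : Prop :=
  ∃ R : V → ℕ, Relation.ReflTransGen (Move G) P R ∧ ∀ w, Q w ≤ R w

lemma move_add {P Q : V → ℕ} (S : V → ℕ) (h : Move G P Q) : Move G (P + S) (Q + S) := by
  obtain ⟨u, v, h1, h2, rfl⟩ := h
  refine ⟨u, v, h1, by simp only [Pi.add_apply]; omega, funext fun w => ?_⟩
  simp only [Pi.add_apply]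
  split_ifs with a b
  · subst a; omega
  · subst b; omega
  · rfl

lemma moves_add {P Q : V → ℕ} (S : V → ℕ) (h : Relation.ReflTransGen (Move G) P Q) :
    Relation.ReflTransGen (Move G) (P + S) (Q + S) := by
  induction h with
  | refl => exact .refl
  | tail _ h ih => exact ih.tail (move_add S h)

lemma rch_of_le {P Q : V → ℕ} (h : ∀ w, Q w ≤ P w) : Rch G P Q := ⟨P, .refl, h⟩

lemma Rch.trans {P Q R : V → ℕ} (h : Rch G P Q) (h' : Rch G Q R) : Rch G P R := by
  obtain ⟨Q', h1, h2⟩ := h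
  obtain ⟨R', h3, h4⟩ := h'
  have : Q' = Q + (Q' - Q) := funext fun w => by
    have := h2 w
    simp only [Pi.add_apply, Pi.sub_apply]; omega
  refine ⟨R' + (Q' - Q), h1.trans ?_, fun w => ?_⟩
  · nth_rewrite 1 [this]
    exact moves_add _ h3
  · have := h4 w
    simp only [Pi.add_apply]; omega

lemma Rch.add {P Q P' Q' : V → ℕ} (h : Rch G P Q) (h' : Rch G P' Q') :
    Rch G (P + P') (Q + Q') := by
  obtain ⟨R, h1, h2⟩ := h
  obtain ⟨R', h3, h4⟩ := h'
  have h5 := moves_add R h3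
  rw [add_comm P', add_comm R'] at h5
  exact ⟨_, (moves_add P' h1).trans h5, fun w => add_le_add (h2 w) (h4 w)⟩

lemma rch_single (v : V) {k l : ℕ} (h : l ≤ k) : Rch G (Pi.single v k) (Pi.single v l) :=
  rch_of_le fun w => by
    by_cases e : w = v
    · subst e; simpa using h
    · simp [e]

lemma rch_edge {u v : V} (a : G.Adj u v) (k : ℕ) :
    Rch G (Pi.single u (k * 2)) (Pi.single v k) := by
  induction k with
  | zero => exact rch_of_le fun w => by simp
  | succ k ih =>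
    rw [add_mul, Pi.single_add, Pi.single_add]
    refine ih.add ⟨_, .single ⟨u, v, a, by simp, rfl⟩, fun w => ?_⟩
    by_cases e : w = v
    · subst e; simp [a.ne']
    · simp [e]

omit [DecidableEq V] in
lemma value_add [Fintype V] (P P' : V → ℕ) (x : V) :
    value G (P + P') x = value G P x + value G P' x := by
  simp [value, add_mul, Finset.sum_add_distrib]

lemma value_single [Fintype V] (y x : V) (k : ℕ) :
    value G (Pi.single y k) x = k / 2 ^ G.dist x y := by
  rw [value, Finset.sum_eq_single y (fun w _ hw => by simp [hw]) (by simp), Pi.single_eq_same,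
    div_eq_mul_inv, ← zpow_natCast, ← zpow_neg]

lemma value_move [Fintype V] (hc : G.Connected) {P Q : V → ℕ} (h : Move G P Q) (x : V) :
    value G Q x ≤ value G P x := by
  obtain ⟨u, v, a, h2, e⟩ := h
  have e' : Q + Pi.single u 2 = P + Pi.single v 1 := funext fun w => by
    have := a.ne
    simp only [e, Pi.add_apply, Pi.single_apply]
    split_ifs with b c d <;> subst_vars <;> first | contradiction | omega
  have h3 := congrArg (value G · x) e'
  simp only [value_add, value_single] at h3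
  have h4 : G.dist x u ≤ G.dist x v + 1 :=
    (hc.dist_triangle (v := v)).trans (by rw [dist_eq_one_iff_adj.2 a.symm])
  have h5 : (2 : ℝ) ^ G.dist x u ≤ 2 ^ G.dist x v * 2 := by
    rw [← pow_succ]; exact pow_le_pow_right₀ one_le_two h4
  have h6 : ((1 : ℕ) : ℝ) / 2 ^ G.dist x v ≤ (2 : ℕ) / 2 ^ G.dist x u := by
    rw [div_le_div_iff₀ (by positivity) (by positivity)]
    push_cast; linarith
  linarith

lemma value_moves [Fintype V] (hc : G.Connected) {P Q : V → ℕ}
    (h : Relation.ReflTransGen (Move G) P Q) (x : V) : value G Q x ≤ value G P x := by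
  induction h with
  | refl => exact le_rfl
  | tail _ h ih => exact (value_move hc h x).trans ih

lemma last_move [Fintype V] (hc : G.Connected) {P Q : V → ℕ}
    (h : Relation.ReflTransGen (Move G) P Q) (y : V) (hy : 1 ≤ Q y) :
    1 ≤ P y ∨ ∃ u, G.Adj u y ∧ 2 ≤ value G P u := by
  induction h with
  | refl => exact Or.inl hy
  | @tail Q R h1 h ih =>
    by_cases c : 1 ≤ Q y
    · exact ih c
    · obtain ⟨u, v, a, h2, rfl⟩ := h
      dsimp only at hy
      split_ifs at hy with b d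
      · subst b; omega
      · subst d
        refine Or.inr ⟨u, a, le_trans ?_ (value_moves hc h1 u)⟩
        refine le_trans ?_ (Finset.single_le_sum (f := fun z => (Q z : ℝ) * 2 ^ (-(G.dist u z : ℤ)))
          (fun z _ => by positivity) (Finset.mem_univ u))
        simpa using (by exact_mod_cast h2 : (2 : ℝ) ≤ Q u)
      · omega

end Gen

/-! ### The grid -/

lemma adj_iff {m n : ℕ} {u v : Fin m × Fin n} : (grid m n).Adj u v ↔
    (u.1.val + 1 = v.1.val ∨ v.1.val + 1 = u.1.val) ∧ u.2.val = v.2.val ∨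
    (u.2.val + 1 = v.2.val ∨ v.2.val + 1 = u.2.val) ∧ u.1.val = v.1.val := by
  simp only [grid, boxProd_adj, pathGraph_adj, Fin.ext_iff]

/-- the taxicab distance -/
def taxi {m n : ℕ} (u v : Fin m × Fin n) : ℕ :=
  (u.1.val - v.1.val) + (v.1.val - u.1.val) + (u.2.val - v.2.val) + (v.2.val - u.2.val)

lemma conn (m n : ℕ) : (grid (m + 1) (n + 1)).Connected :=
  (pathGraph_connected m).boxProd (pathGraph_connected n)

lemma taxi_zero {m n : ℕ} {a v : Fin m × Fin n} (h : taxi a v ≤ 0) : a = v := by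
  simp only [taxi] at h
  exact Prod.ext (Fin.ext (by omega)) (Fin.ext (by omega))

lemma taxi_step {m n k : ℕ} (a v : Fin m × Fin n) (h : taxi a v = k + 1) :
    ∃ w, (grid m n).Adj w v ∧ taxi a w = k := by
  obtain ⟨⟨i, hi⟩, ⟨j, hj⟩⟩ := v
  have h1 := a.1.2
  have h2 := a.2.2
  simp only [taxi] at h
  rcases lt_trichotomy i a.1.val with c | c | c
  · exact ⟨(⟨i + 1, by omega⟩, ⟨j, hj⟩), adj_iff.2 (by simp), by simp only [taxi]; omega⟩
  · rcases lt_trichotomy j a.2.val with d | d | d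
    · exact ⟨(⟨i, hi⟩, ⟨j + 1, by omega⟩), adj_iff.2 (by simp), by simp only [taxi]; omega⟩
    · omega
    · exact ⟨(⟨i, hi⟩, ⟨j - 1, by omega⟩), adj_iff.2 (by simp; omega), by simp only [taxi]; omega⟩
  · exact ⟨(⟨i - 1, by omega⟩, ⟨j, hj⟩), adj_iff.2 (by simp; omega), by simp only [taxi]; omega⟩

lemma dist_eq {m n : ℕ} (u v : Fin (m + 1) × Fin (n + 1)) :
    (grid (m + 1) (n + 1)).dist u v = taxi u v := by
  refine le_antisymm ?_ ?_
  · obtain ⟨k, hk⟩ : ∃ k, taxi u v = k := ⟨_, rfl⟩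
    rw [hk]
    induction k generalizing v with
    | zero => rw [taxi_zero hk.le, dist_self]
    | succ k ih =>
      obtain ⟨w, a, h⟩ := taxi_step u v hk
      exact ((conn m n).dist_triangle (v := w)).trans
        (add_le_add (ih w h) (dist_eq_one_iff_adj.2 a).le)
  · obtain ⟨p, hp⟩ := (conn m n).exists_walk_length_eq_dist u v
    rw [← hp]
    clear hp
    induction p with
    | nil => simp [taxi]
    | @cons a b c h p ih =>
      rw [adj_iff] at h
      simp only [taxi, Walk.length_cons] at ih ⊢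
      omega

lemma rch_pile {m n : ℕ} (a : Fin m × Fin n) (d : ℕ) : ∀ v k, taxi a v ≤ d →
    Rch (grid m n) (Pi.single a (k * 2 ^ d)) (Pi.single v k) := by
  induction d with
  | zero =>
    intro v k h
    rw [taxi_zero h]
    exact rch_single v (by simp)
  | succ d ih =>
    intro v k h
    rcases h.lt_or_eq with c | c
    · exact (rch_single a (by rw [pow_succ, ← mul_assoc]; omega)).trans (ih v k (by omega))
    · obtain ⟨w, hw, e⟩ := taxi_step a v c
      rw [pow_succ', ← mul_assoc]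
      exact (ih w _ e.le).trans (rch_edge hw k)

/-! ### The lower bound -/

/-- The linear programs on the `5 x 5` window. -/
lemma window (q w : ℕ → ℕ → ℝ) (h0 : ∀ c d, 0 ≤ q c d)
    (hw : ∀ x y, x ≤ 4 ∧ y ≤ 4 → w x y = ∑ c ∈ Finset.range 5, ∑ d ∈ Finset.range 5,
      q c d / 2 ^ ((c - x) + (x - c) + (d - y) + (y - d)))
    (hR : ∀ x y, 1 ≤ x ∧ x ≤ 3 ∧ 1 ≤ y ∧ y ≤ 3 → 1 ≤ q x y ∨ 2 ≤ w (x + 1) y ∨ 2 ≤ w (x - 1) y ∨
      2 ≤ w x (y + 1) ∨ 2 ≤ w x (y - 1)) : 4 / 3 ≤ w 2 2 := by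
  have hq : 0 ≤ q 0 0 ∧ 0 ≤ q 0 1 ∧ 0 ≤ q 0 2 ∧ 0 ≤ q 0 3 ∧ 0 ≤ q 0 4 ∧ 0 ≤ q 1 0 ∧ 0 ≤ q 1 1 ∧
      0 ≤ q 1 2 ∧ 0 ≤ q 1 3 ∧ 0 ≤ q 1 4 ∧ 0 ≤ q 2 0 ∧ 0 ≤ q 2 1 ∧ 0 ≤ q 2 2 ∧ 0 ≤ q 2 3 ∧ 0 ≤ q 2 4
      ∧ 0 ≤ q 3 0 ∧ 0 ≤ q 3 1 ∧ 0 ≤ q 3 2 ∧ 0 ≤ q 3 3 ∧ 0 ≤ q 3 4 ∧ 0 ≤ q 4 0 ∧ 0 ≤ q 4 1 ∧
      0 ≤ q 4 2 ∧ 0 ≤ q 4 3 ∧ 0 ≤ q 4 4 := by
    simp only [h0, and_self]
  have e01 := hw 0 1 (by omega)
  have e02 := hw 0 2 (by omega)
  have e03 := hw 0 3 (by omega)
  have e10 := hw 1 0 (by omega)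
  have e11 := hw 1 1 (by omega)
  have e12 := hw 1 2 (by omega)
  have e13 := hw 1 3 (by omega)
  have e14 := hw 1 4 (by omega)
  have e20 := hw 2 0 (by omega)
  have e21 := hw 2 1 (by omega)
  have e22 := hw 2 2 (by omega)
  have e23 := hw 2 3 (by omega)
  have e24 := hw 2 4 (by omega)
  have e30 := hw 3 0 (by omega)
  have e31 := hw 3 1 (by omega)
  have e32 := hw 3 2 (by omega)
  have e33 := hw 3 3 (by omega)
  have e34 := hw 3 4 (by omega)
  have e41 := hw 4 1 (by omega)
  have e42 := hw 4 2 (by omega)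
  have e43 := hw 4 3 (by omega)
  norm_num [Finset.sum_range_succ] at e01 e02 e03 e10 e11 e12 e13 e14 e20 e21 e22
  norm_num [Finset.sum_range_succ] at e23 e24 e30 e31 e32 e33 e34 e41 e42 e43
  have r11 : 1 ≤ q 1 1 ∨ 2 ≤ w 2 1 ∨ 2 ≤ w 0 1 ∨ 2 ≤ w 1 2 ∨ 2 ≤ w 1 0 := hR 1 1 (by omega)
  have r12 : 1 ≤ q 1 2 ∨ 2 ≤ w 2 2 ∨ 2 ≤ w 0 2 ∨ 2 ≤ w 1 3 ∨ 2 ≤ w 1 1 := hR 1 2 (by omega)
  have r13 : 1 ≤ q 1 3 ∨ 2 ≤ w 2 3 ∨ 2 ≤ w 0 3 ∨ 2 ≤ w 1 4 ∨ 2 ≤ w 1 2 := hR 1 3 (by omega)
  have r21 : 1 ≤ q 2 1 ∨ 2 ≤ w 3 1 ∨ 2 ≤ w 1 1 ∨ 2 ≤ w 2 2 ∨ 2 ≤ w 2 0 := hR 2 1 (by omega)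
  have r22 : 1 ≤ q 2 2 ∨ 2 ≤ w 3 2 ∨ 2 ≤ w 1 2 ∨ 2 ≤ w 2 3 ∨ 2 ≤ w 2 1 := hR 2 2 (by omega)
  have r23 : 1 ≤ q 2 3 ∨ 2 ≤ w 3 3 ∨ 2 ≤ w 1 3 ∨ 2 ≤ w 2 4 ∨ 2 ≤ w 2 2 := hR 2 3 (by omega)
  have r31 : 1 ≤ q 3 1 ∨ 2 ≤ w 4 1 ∨ 2 ≤ w 2 1 ∨ 2 ≤ w 3 2 ∨ 2 ≤ w 3 0 := hR 3 1 (by omega)
  have r32 : 1 ≤ q 3 2 ∨ 2 ≤ w 4 2 ∨ 2 ≤ w 2 2 ∨ 2 ≤ w 3 3 ∨ 2 ≤ w 3 1 := hR 3 2 (by omega)
  have r33 : 1 ≤ q 3 3 ∨ 2 ≤ w 4 3 ∨ 2 ≤ w 2 3 ∨ 2 ≤ w 3 4 ∨ 2 ≤ w 3 2 := hR 3 3 (by omega)
  rcases r22 with h1 | h1 | h1 | h1 | h1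
  · rcases r12 with h2 | h2 | h2 | h2 | h2
    · linarith only [h1, h2, e22, hq]
    · linarith only [h2]
    · linarith only [h1, h2, e02, e22, hq]
    · linarith only [h1, h2, e13, e22, hq]
    · linarith only [h1, h2, e11, e22, hq]
  · rcases r12 with h2 | h2 | h2 | h2 | h2
    · linarith only [h1, h2, e32, e22, hq]
    · linarith only [h2]
    · linarith only [h1, h2, e02, e32, e22, hq]
    · rcases r11 with h3 | h3 | h3 | h3 | h3
      · linarith only [h1, h2, h3, e13, e32, e22, hq]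
      · linarith only [h1, h2, h3, e13, e21, e32, e22, hq]
      · rcases r21 with h4 | h4 | h4 | h4 | h4
        · linarith only [h1, h2, h3, h4, e01, e13, e32, e22, hq]
        · linarith only [h1, h2, h3, h4, e01, e13, e31, e32, e22, hq]
        · linarith only [h1, h2, h4, e11, e13, e32, e22, hq]
        · linarith only [h4]
        · linarith only [h1, h2, h3, h4, e01, e13, e20, e32, e22, hq]
      · linarith only [h1, h3, e12, e32, e22, hq]
      · linarith only [h1, h2, h3, e10, e13, e32, e22, hq]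
    · rcases r13 with h3 | h3 | h3 | h3 | h3
      · linarith only [h1, h2, h3, e11, e32, e22, hq]
      · linarith only [h1, h2, h3, e11, e23, e32, e22, hq]
      · rcases r23 with h4 | h4 | h4 | h4 | h4
        · linarith only [h1, h2, h3, h4, e03, e11, e32, e22, hq]
        · linarith only [h1, h2, h3, h4, e03, e11, e32, e33, e22, hq]
        · linarith only [h1, h2, h4, e11, e13, e32, e22, hq]
        · linarith only [h1, h2, h3, h4, e03, e11, e24, e32, e22, hq]
        · linarith only [h4]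
      · linarith only [h1, h2, h3, e11, e14, e32, e22, hq]
      · linarith only [h1, h3, e12, e32, e22, hq]
  · rcases r32 with h2 | h2 | h2 | h2 | h2
    · linarith only [h1, h2, e12, e22, hq]
    · linarith only [h1, h2, e12, e42, e22, hq]
    · linarith only [h2]
    · rcases r31 with h3 | h3 | h3 | h3 | h3
      · linarith only [h1, h2, h3, e12, e33, e22, hq]
      · rcases r21 with h4 | h4 | h4 | h4 | h4
        · linarith only [h1, h2, h3, h4, e12, e33, e41, e22, hq]
        · linarith only [h1, h2, h4, e12, e31, e33, e22, hq]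
        · linarith only [h1, h2, h3, h4, e11, e12, e33, e41, e22, hq]
        · linarith only [h4]
        · linarith only [h1, h2, h3, h4, e12, e20, e33, e41, e22, hq]
      · linarith only [h1, h2, h3, e12, e21, e33, e22, hq]
      · linarith only [h1, h3, e12, e32, e22, hq]
      · linarith only [h1, h2, h3, e12, e30, e33, e22, hq]
    · rcases r33 with h3 | h3 | h3 | h3 | h3
      · linarith only [h1, h2, h3, e12, e31, e22, hq]
      · rcases r23 with h4 | h4 | h4 | h4 | h4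
        · linarith only [h1, h2, h3, h4, e12, e31, e43, e22, hq]
        · linarith only [h1, h2, h4, e12, e31, e33, e22, hq]
        · linarith only [h1, h2, h3, h4, e12, e13, e31, e43, e22, hq]
        · linarith only [h1, h2, h3, h4, e12, e24, e31, e43, e22, hq]
        · linarith only [h4]
      · linarith only [h1, h2, h3, e12, e23, e31, e22, hq]
      · linarith only [h1, h2, h3, e12, e31, e34, e22, hq]
      · linarith only [h1, h3, e12, e32, e22, hq]
  · rcases r21 with h2 | h2 | h2 | h2 | h2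
    · linarith only [h1, h2, e23, e22, hq]
    · rcases r11 with h3 | h3 | h3 | h3 | h3
      · linarith only [h1, h2, h3, e23, e31, e22, hq]
      · linarith only [h1, h3, e21, e23, e22, hq]
      · linarith only [h1, h2, h3, e01, e23, e31, e22, hq]
      · linarith only [h1, h2, h3, e12, e23, e31, e22, hq]
      · rcases r12 with h4 | h4 | h4 | h4 | h4
        · linarith only [h1, h2, h3, h4, e10, e23, e31, e22, hq]
        · linarith only [h4]
        · linarith only [h1, h2, h3, h4, e02, e10, e23, e31, e22, hq]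
        · linarith only [h1, h2, h3, h4, e10, e13, e23, e31, e22, hq]
        · linarith only [h1, h2, h4, e11, e23, e31, e22, hq]
    · rcases r31 with h3 | h3 | h3 | h3 | h3
      · linarith only [h1, h2, h3, e11, e23, e22, hq]
      · linarith only [h1, h2, h3, e11, e23, e41, e22, hq]
      · linarith only [h1, h3, e21, e23, e22, hq]
      · linarith only [h1, h2, h3, e11, e23, e32, e22, hq]
      · rcases r32 with h4 | h4 | h4 | h4 | h4
        · linarith only [h1, h2, h3, h4, e11, e23, e30, e22, hq]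
        · linarith only [h1, h2, h3, h4, e11, e23, e30, e42, e22, hq]
        · linarith only [h4]
        · linarith only [h1, h2, h3, h4, e11, e23, e30, e33, e22, hq]
        · linarith only [h1, h2, h4, e11, e23, e31, e22, hq]
    · linarith only [h2]
    · linarith only [h1, h2, e20, e23, e22, hq]
  · rcases r23 with h2 | h2 | h2 | h2 | h2
    · linarith only [h1, h2, e21, e22, hq]
    · rcases r13 with h3 | h3 | h3 | h3 | h3
      · linarith only [h1, h2, h3, e21, e33, e22, hq]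
      · linarith only [h1, h3, e21, e23, e22, hq]
      · linarith only [h1, h2, h3, e03, e21, e33, e22, hq]
      · rcases r12 with h4 | h4 | h4 | h4 | h4
        · linarith only [h1, h2, h3, h4, e14, e21, e33, e22, hq]
        · linarith only [h4]
        · linarith only [h1, h2, h3, h4, e02, e14, e21, e33, e22, hq]
        · linarith only [h1, h2, h4, e13, e21, e33, e22, hq]
        · linarith only [h1, h2, h3, h4, e11, e14, e21, e33, e22, hq]
      · linarith only [h1, h2, h3, e12, e21, e33, e22, hq]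
    · rcases r33 with h3 | h3 | h3 | h3 | h3
      · linarith only [h1, h2, h3, e13, e21, e22, hq]
      · linarith only [h1, h2, h3, e13, e21, e43, e22, hq]
      · linarith only [h1, h3, e21, e23, e22, hq]
      · rcases r32 with h4 | h4 | h4 | h4 | h4
        · linarith only [h1, h2, h3, h4, e13, e21, e34, e22, hq]
        · linarith only [h1, h2, h3, h4, e13, e21, e34, e42, e22, hq]
        · linarith only [h4]
        · linarith only [h1, h2, h4, e13, e21, e33, e22, hq]
        · linarith only [h1, h2, h3, h4, e13, e21, e31, e34, e22, hq]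
      · linarith only [h1, h2, h3, e13, e21, e32, e22, hq]
    · linarith only [h1, h2, e21, e24, e22, hq]
    · linarith only [h2]

lemma lower {m n : ℕ} (P : Fin (m + 1) × Fin (n + 1) → ℕ) (X : Fin (m + 1) × Fin (n + 1))
    (hP : Solvable (grid _ _) P) (hX : IsInterior X) : 4 / 3 ≤ value (grid _ _) P X := by
  obtain ⟨⟨i, hi⟩, ⟨j, hj⟩⟩ := X
  simp only [IsInterior] at hX
  let cl : Fin (m + 1) × Fin (n + 1) → ℕ × ℕ := fun z =>
    (min 4 (z.1.val + 2 - i), min 4 (z.2.val + 2 - j))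
  let ρ : Fin (m + 1) × Fin (n + 1) → ℝ := fun z => P z / 2 ^ ((z.1.val - (i + 2)) +
    (i - (z.1.val + 2)) + (z.2.val - (j + 2)) + (j - (z.2.val + 2)))
  let q : ℕ → ℕ → ℝ := fun c d => ∑ z with cl z = (c, d), ρ z
  let w : ℕ → ℕ → ℝ := fun x y => ∑ c ∈ Finset.range 5, ∑ d ∈ Finset.range 5,
    q c d / 2 ^ ((c - x) + (x - c) + (d - y) + (y - d))
  have hρ : ∀ z, 0 ≤ ρ z := fun z => by positivity
  have key : ∀ (u : Fin (m + 1) × Fin (n + 1)) (x y : ℕ), x ≤ 4 → y ≤ 4 → u.1.val + 2 = i + x →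
      u.2.val + 2 = j + y → value (grid _ _) P u = w x y := by
    intro u x y hx hy h1 h2
    simp only [w, q]
    rw [← Finset.sum_product', value,
      ← Finset.sum_fiberwise_of_maps_to (t := Finset.range 5 ×ˢ Finset.range 5) (g := cl)
        (fun z _ => by simp only [cl, Finset.mem_product, Finset.mem_range]; omega)]
    refine Finset.sum_congr rfl fun c _ => ?_
    rw [Finset.sum_div]
    refine Finset.sum_congr rfl fun z hz => ?_
    obtain rfl : cl z = c := (Finset.mem_filter.1 hz).2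
    simp only [ρ]
    rw [div_div, ← pow_add, div_eq_mul_inv, ← zpow_natCast, ← zpow_neg, dist_eq]
    congr 4
    simp only [taxi, cl]
    omega
  rw [key _ 2 2 (by omega) (by omega) rfl rfl]
  refine window q w (fun c d => Finset.sum_nonneg fun z _ => hρ z) (fun _ _ _ => rfl)
    fun x y h => ?_
  let t : Fin (m + 1) × Fin (n + 1) := (⟨i + x - 2, by omega⟩, ⟨j + y - 2, by omega⟩)
  obtain ⟨Q, h1, h2⟩ := hP t
  rcases last_move (conn m n) h1 t h2 with a | ⟨u, a, b⟩
  · refine Or.inl (le_trans ?_ (Finset.single_le_sum (a := t) (fun z _ => hρ z) ?_))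
    · simp only [ρ, t]
      rw [show i + x - 2 - (i + 2) + (i - (i + x - 2 + 2)) + (j + y - 2 - (j + 2)) +
        (j - (j + y - 2 + 2)) = 0 by omega]
      simpa using (by exact_mod_cast a : (1 : ℝ) ≤ P t)
    · simp only [cl, t, Finset.mem_filter, Finset.mem_univ, true_and, Prod.mk.injEq]
      omega
  · rw [adj_iff] at a
    simp only [t] at a
    rcases a with ⟨a | a, a'⟩ | ⟨a | a, a'⟩
    · rw [key u (x - 1) y (by omega) (by omega) (by omega) (by omega)] at b
      exact Or.inr (Or.inr (Or.inl b))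
    · rw [key u (x + 1) y (by omega) (by omega) (by omega) (by omega)] at b
      exact Or.inr (Or.inl b)
    · rw [key u x (y - 1) (by omega) (by omega) (by omega) (by omega)] at b
      exact Or.inr (Or.inr (Or.inr (Or.inr b)))
    · rw [key u x (y + 1) (by omega) (by omega) (by omega) (by omega)] at b
      exact Or.inr (Or.inr (Or.inr (Or.inl b)))

/-! ### Four piles on the square grid of side `2 K + 7` with centre `(K + 3, K + 3)` -/

section Ex
variable (K : ℕ)

/-- the vertices -/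
abbrev Vx : Type := Fin (2 * K + 6 + 1) × Fin (2 * K + 6 + 1)

/-- the vertex with coordinates `i`, `j` -/
def pt (i j : ℕ) : Vx K := (⟨min i (2 * K + 6), by omega⟩, ⟨min j (2 * K + 6), by omega⟩)

/-- the unit of the piles -/
def tt : ℕ := 2 ^ (K + 3) / 18 + 1

/-- two piles at the ends of the row `ρ` -/
def row (ρ : ℕ) : Vx K → ℕ :=
  Pi.single (pt K (2 * K + 6) ρ) (tt K * 2 ^ (K + 6)) + Pi.single (pt K 0 ρ) (tt K * 2 ^ (K + 5))

/-- the distribution -/
def P₀ : Vx K → ℕ := row K 0 + row K (2 * K + 6)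

lemma col (ρ i j e a b : ℕ) (hi : i ≤ 2 * K + 6) (hρ : ρ ≤ 2 * K + 6) (hj : j ≤ 2 * K + 6)
    (he : (ρ - j) + (j - ρ) ≤ e) (ha : a * 2 ^ (2 * K + 6 - i) ≤ tt K * 2 ^ (K + 6))
    (hb : b * 2 ^ i ≤ tt K * 2 ^ (K + 5)) (h : 2 ^ e ≤ a + b) :
    Rch (grid _ _) (row K ρ) (Pi.single (pt K i j) 1) := by
  have h1 := (rch_single _ ha).trans (rch_pile (pt K (2 * K + 6) ρ) _ (pt K i ρ) a
    (by simp only [taxi, pt]; omega))
  have h2 := (rch_single _ hb).trans (rch_pile (pt K 0 ρ) _ (pt K i ρ) b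
    (by simp only [taxi, pt]; omega))
  have h3 := h1.add h2
  rw [← Pi.single_add] at h3
  exact (h3.trans (rch_single _ (by simpa using h))).trans
    (rch_pile (pt K i ρ) e (pt K i j) 1 (by simp only [taxi, pt]; omega))

lemma col' (ρ i j e : ℕ) (hi : i ≤ 2 * K + 6) (hρ : ρ ≤ 2 * K + 6) (hj : j ≤ 2 * K + 6)
    (he : (ρ - j) + (j - ρ) ≤ e) (h : e ≤ K + 2 ∨ e ≤ K + 3 ∧ i ≠ K + 2 ∧ i ≠ K + 3) :
    Rch (grid _ _) (row K ρ) (Pi.single (pt K i j) 1) := by
  have p : ∀ f g l : ℕ, f + g ≤ l → tt K * 2 ^ f * 2 ^ g ≤ tt K * 2 ^ l := fun f g l h => by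
    rw [mul_assoc, ← pow_add]
    exact Nat.mul_le_mul_left _ (Nat.pow_le_pow_right two_pos h)
  have t1 : 2 ^ (K + 2) * 2 ≤ 18 * tt K := by
    rw [show 2 ^ (K + 2) * 2 = 2 ^ (K + 3) from rfl, tt]; omega
  have t2 : 2 ^ e ≤ 2 ^ (K + 2) * 2 := by
    rw [← pow_succ]; exact Nat.pow_le_pow_right two_pos (by omega)
  have t3 : e ≤ K + 2 → 2 ^ e ≤ 2 ^ (K + 2) := Nat.pow_le_pow_right two_pos
  have c : i ≤ K ∨ i = K + 1 ∨ i = K + 2 ∨ i = K + 3 ∨ i = K + 4 ∨ K + 5 ≤ i := by omega
  rcases c with c | c | c | c | c | c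
  · exact col K ρ i j e 0 _ hi hρ hj he (by simp) (p 5 _ _ (by omega)) (by omega)
  · exact col K ρ i j e _ _ hi hρ hj he (p 1 _ _ (by omega)) (p 4 _ _ (by omega)) (by omega)
  · exact col K ρ i j e _ _ hi hρ hj he (p 2 _ _ (by omega)) (p 3 _ _ (by omega)) (by omega)
  · exact col K ρ i j e _ _ hi hρ hj he (p 3 _ _ (by omega)) (p 2 _ _ (by omega)) (by omega)
  · exact col K ρ i j e _ _ hi hρ hj he (p 4 _ _ (by omega)) (p 1 _ _ (by omega)) (by omega)
  · exact col K ρ i j e _ 0 hi hρ hj he (p 5 _ _ (by omega)) (by simp) (by omega)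

lemma two (i i' : ℕ) (h : i = K + 1 ∧ i' = K + 2 ∨ i = K + 4 ∧ i' = K + 3) :
    Rch (grid _ _) (P₀ K) (Pi.single (pt K i' (K + 3)) 1) := by
  have h1 := (col' K 0 i (K + 3) (K + 3) (by omega) (by omega) (by omega) (by omega)
    (by omega)).add (col' K (2 * K + 6) i (K + 3) (K + 3) (by omega) (by omega) (by omega)
      (by omega) (by omega))
  rw [← Pi.single_add] at h1
  exact h1.trans (rch_edge (adj_iff.2 (by dsimp only [pt]; omega)) 1)

lemma solvable : Solvable (grid _ _) (P₀ K) := by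
  rintro ⟨⟨i, hi⟩, ⟨j, hj⟩⟩
  have e : ((⟨i, hi⟩, ⟨j, hj⟩) : Vx K) = pt K i j := by
    simp only [pt, Prod.mk.injEq, Fin.mk.injEq]; omega
  rw [e]
  suffices h : Rch (grid _ _) (P₀ K) (Pi.single (pt K i j) 1) by
    obtain ⟨R, h1, h2⟩ := h
    exact ⟨R, h1, by simpa using h2 (pt K i j)⟩
  have r1 : Rch (grid _ _) (P₀ K) (row K 0) := rch_of_le fun w => Nat.le_add_right _ _
  have r2 : Rch (grid _ _) (P₀ K) (row K (2 * K + 6)) := rch_of_le fun w => Nat.le_add_left _ _
  rcases lt_trichotomy j (K + 3) with c | rfl | c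
  · exact r1.trans (col' K 0 i j (K + 2) (by omega) (by omega) (by omega) (by omega) (by omega))
  · by_cases d : i = K + 2
    · exact two K (K + 1) i (by omega)
    · by_cases d' : i = K + 3
      · exact two K (K + 4) i (by omega)
      · exact r1.trans (col' K 0 i _ (K + 3) (by omega) (by omega) (by omega) (by omega)
          (by omega))
  · exact r2.trans (col' K _ i j (K + 2) (by omega) (by omega) (by omega) (by omega) (by omega))

lemma value_P₀ :
    value (grid _ _) (P₀ K) (pt K (K + 3) (K + 3)) ≤ 4 / 3 + 24 / 2 ^ (K + 3) := by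
  have h0 : ∀ i j, (i = 0 ∨ i = 2 * K + 6) → (j = 0 ∨ j = 2 * K + 6) →
      (grid _ _).dist (pt K (K + 3) (K + 3)) (pt K i j) = 2 * K + 6 := fun i j h h' => by
    rw [dist_eq]; simp only [taxi, pt]; omega
  have h1 : (tt K : ℝ) ≤ 2 ^ (K + 3) / 18 + 1 := by
    have := Nat.cast_div_le (α := ℝ) (m := 2 ^ (K + 3)) (n := 18)
    rw [tt]; push_cast at this ⊢; linarith
  simp only [P₀, row, value_add, value_single]
  rw [h0 _ _ (by omega) (by omega), h0 _ _ (by omega) (by omega), h0 _ _ (by omega) (by omega),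
    h0 _ _ (by omega) (by omega)]
  calc _ = (tt K : ℝ) * (24 / 2 ^ (K + 3)) := by push_cast; field_simp; ring
    _ ≤ (2 ^ (K + 3) / 18 + 1) * (24 / 2 ^ (K + 3)) := by gcongr
    _ = _ := by field_simp; ring

lemma bd_dist (y : Vx K) (h : ¬ IsInterior y) :
    K + 3 ≤ (grid _ _).dist (pt K (K + 3) (K + 3)) y := by
  rw [dist_eq]
  have h1 := y.1.2
  have h2 := y.2.2
  simp only [IsInterior] at h
  simp only [taxi, pt]
  omega

lemma value_hem (P : Vx K → ℕ) : value (grid _ _) (hem P) (pt K (K + 3) (K + 3)) ≤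
    value (grid _ _) P (pt K (K + 3) (K + 3)) + (2 * K + 7) ^ 2 * (2 / 2 ^ (K + 3)) := by
  have : ((2 * K + 7) ^ 2 * (2 / 2 ^ (K + 3)) : ℝ) = ∑ _y : Vx K, (2 / 2 ^ (K + 3) : ℝ) := by
    simp only [Finset.sum_const, Finset.card_univ, Fintype.card_prod, Fintype.card_fin,
      nsmul_eq_mul]
    push_cast; ring
  rw [this, value, value, ← Finset.sum_add_distrib]
  refine Finset.sum_le_sum fun y _ => ?_
  rw [hem]
  split_ifs with h
  · exact le_add_of_nonneg_right (by positivity)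
  · have := bd_dist K y h
    push_cast
    rw [add_mul, add_le_add_iff_left, div_eq_mul_inv, ← zpow_natCast, ← zpow_neg]
    exact mul_le_mul_of_nonneg_left (zpow_le_zpow_right₀ one_le_two (by omega)) (by norm_num)

end Ex

lemma small (r : ℕ) {ε : ℝ} (hε : 0 < ε) : ∃ K : ℕ, r ≤ K ∧
    24 / 2 ^ (K + 3) + (2 * K + 7) ^ 2 * (2 / 2 ^ (K + 3)) < ε := by
  have h := (tendsto_pow_const_div_const_pow_of_one_lt 2 (one_lt_two (α := ℝ))).eventually
    (gt_mem_nhds (half_pos (half_pos (half_pos (half_pos hε)))))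
  obtain ⟨N, hN⟩ := Filter.eventually_atTop.1 h
  refine ⟨max r N, le_max_left _ _, ?_⟩
  have h1 := hN (max r N + 3) (by omega)
  generalize max r N = K at *
  have h2 : (0 : ℝ) ≤ K := Nat.cast_nonneg K
  have h3 : (0 : ℝ) < 2 ^ (K + 3) := by positivity
  push_cast at h1
  rw [div_lt_iff₀ h3] at h1
  rw [← mul_div_assoc, ← add_div, div_lt_iff₀ h3]
  nlinarith

/-- Every interior vertex has value at least `4/3` under every solvable distribution, and for all
`r` and `ε > 0` a value below `4/3 + ε` occurs at an interior vertex at distance at least `r` from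
the boundary, both for the distribution and for its hemmed distribution. -/
theorem two_sided :
    (∀ (m n : ℕ) (P : Fin m × Fin n → ℕ) (X : Fin m × Fin n),
      Solvable (grid m n) P → IsInterior X → 4 / 3 ≤ value (grid m n) P X) ∧
    ∀ (r : ℕ) (ε : ℝ), 0 < ε →
      ∃ (m n : ℕ) (P : Fin m × Fin n → ℕ) (X : Fin m × Fin n),
        1 ≤ m ∧ 1 ≤ n ∧ Solvable (grid m n) P ∧ IsInterior X ∧
        (∀ y, ¬ IsInterior y → r ≤ (grid m n).dist X y) ∧
        value (grid m n) P X < 4 / 3 + ε ∧ value (grid m n) (hem P) X < 4 / 3 + ε := by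
  refine ⟨fun m n P X hP hX => ?_, fun r ε hε => ?_⟩
  · obtain ⟨m, rfl⟩ : ∃ k, m = k + 1 := ⟨m - 1, by have := X.1.2; omega⟩
    obtain ⟨n, rfl⟩ : ∃ k, n = k + 1 := ⟨n - 1, by have := X.2.2; omega⟩
    exact lower P X hP hX
  · obtain ⟨K, hK, h3⟩ := small r hε
    have h1 := value_P₀ K
    have h2 := value_hem K (P₀ K)
    have h4 : (0 : ℝ) ≤ (2 * K + 7) ^ 2 * (2 / 2 ^ (K + 3)) := by positivity
    exact ⟨_, _, P₀ K, pt K (K + 3) (K + 3), by omega, by omega, solvable _,
      by simp only [IsInterior, pt]; omega, fun y hy => le_trans (by omega) (bd_dist _ y hy),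
      by linarith, by linarith⟩

end Pool.Agent.P.MP_33b0ad_co.TwoSided
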